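import Mathlib
import Pool.Agent.H574R3.CS.Tasks

set_option autoImplicit false

namespace Pool.Agent.H750R3.CS

open Polynomial Finset

/-- fibres of a cubic have at most three elements -/
theorem fibre_le {K : Type} [Field K] [Fintype K] [DecidableEq K] {a b c d : K} (ha : a ≠ 0)
    (v : K) :
    (univ.filter fun x : K => a * x ^ 3 + b * x ^ 2 + c * x + d = v).card ≤ 3 := by
  set P : K[X] := C a * X ^ 3 + C b * X ^ 2 + C c * X + C (d - v) with hP
  have hdeg : P.natDegree = 3 := natDegree_cubic ha
  have hP0 : P ≠ 0 := by
    intro h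
    rw [h] at hdeg
    simp at hdeg
  have hsub : (univ.filter fun x : K => a * x ^ 3 + b * x ^ 2 + c * x + d = v) ⊆
      P.roots.toFinset := by
    intro x hx
    rw [mem_filter] at hx
    rw [Multiset.mem_toFinset, mem_roots hP0, IsRoot.def, hP]
    simp only [eval_add, eval_mul, eval_C, eval_pow, eval_X]
    linear_combination hx.2
  calc _ ≤ P.roots.toFinset.card := card_le_card hsub
    _ ≤ Multiset.card P.roots := Multiset.toFinset_card_le _
    _ ≤ P.natDegree := card_roots' P
    _ = 3 := hdeg

/-- a primitive cube root of unity -/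
theorem exists_omega {K : Type} [Field K] [Fintype K] (hq : Fintype.card K % 3 = 1) :
    ∃ w : K, w ^ 2 + w + 1 = 0 := by
  classical
  have h3 : 3 ∣ Fintype.card Kˣ := by
    rw [Fintype.card_units]
    omega
  haveI : Fact (Nat.Prime 3) := ⟨Nat.prime_three⟩
  obtain ⟨u, hu⟩ := exists_prime_orderOf_dvd_card 3 h3
  have h1 : u ^ 3 = 1 := by rw [← hu]; exact pow_orderOf_eq_one u
  have h2 : (u : K) ≠ 1 := by
    intro h
    have : u = 1 := Units.ext h
    rw [this, orderOf_one] at hu
    omega
  refine ⟨u, ?_⟩
  have h4 : (u : K) ^ 3 = 1 := by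
    rw [← Units.val_pow_eq_pow_val, h1, Units.val_one]
  have h5 : ((u : K) - 1) * ((u : K) ^ 2 + u + 1) = 0 := by linear_combination h4
  rcases mul_eq_zero.mp h5 with h | h
  · exact absurd (sub_eq_zero.mp h) h2
  · exact h

/-- the value set of a nondegenerate cubic is large -/
theorem image_ge {K : Type} [Field K] [Fintype K] [DecidableEq K] (hq : Fintype.card K % 3 = 1)
    {a b c d : K} (ha : a ≠ 0) (hD : b ^ 2 ≠ 3 * a * c) :
    2 * Fintype.card K + 1 ≤
      3 * (univ.image fun x : K => a * x ^ 3 + b * x ^ 2 + c * x + d).card := by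
  obtain ⟨w, hw⟩ := exists_omega hq
  have h3 : (3 : K) ≠ 0 := by
    intro h
    have h1 : (w - 1) ^ 2 = 0 := by linear_combination hw - w * h
    have h2 : w = 1 := sub_eq_zero.mp (pow_eq_zero_iff (two_ne_zero) |>.mp h1)
    -- then 3 = 0 is consistent; use card
    have hchar : ringChar K ∣ 3 := by
      have := (ringChar.spec K 3).mp (by exact_mod_cast h)
      exact this
    have hp : Nat.Prime (ringChar K) := CharP.char_is_prime K (ringChar K)
    have h4 : ringChar K = 3 := (Nat.prime_dvd_prime_iff_eq hp Nat.prime_three).mp hchar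
    obtain ⟨n, _, hn⟩ := FiniteField.card K (ringChar K)
    rw [h4] at hn
    have : 3 ∣ Fintype.card K := by
      rw [hn]
      exact dvd_pow_self 3 n.ne_zero
    omega
  have hww : w ≠ w ^ 2 := by
    intro h
    have h1 : w * (w - 1) = 0 := by linear_combination -h
    rcases mul_eq_zero.mp h1 with h2 | h2
    · rw [h2] at hw
      norm_num at hw
    · have h4 : w = 1 := sub_eq_zero.mp h2
      rw [h4] at hw
      apply h3
      linear_combination hw
  set f : K → K := fun x => a * x ^ 3 + b * x ^ 2 + c * x + d with hf
  set im := univ.image f with him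
  set n : K → ℕ := fun v => (univ.filter fun x : K => f x = v).card with hn
  have hn3 : ∀ v, n v ≤ 3 := fun v => fibre_le ha v
  have hn1 : ∀ v ∈ im, 1 ≤ n v := by
    intro v hv
    rw [him, mem_image] at hv
    obtain ⟨x, _, hx⟩ := hv
    exact card_pos.mpr ⟨x, by simp [hx]⟩
  -- sum of n
  have hsum : Fintype.card K = ∑ v ∈ im, n v := by
    have := Finset.card_eq_sum_card_image f (univ : Finset K)
    rw [card_univ] at this
    exact this
  -- pairs
  set P : Finset (K × K) := univ.filter fun p : K × K => f p.1 = f p.2 with hP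
  have hPsum : P.card = ∑ v ∈ im, n v * n v := by
    rw [card_eq_sum_card_fiberwise (f := fun p : K × K => f p.1) (t := im)
      (fun p _ => mem_image_of_mem f (mem_univ _))]
    refine sum_congr rfl fun v _ => ?_
    rw [hn]
    simp only
    rw [← card_product]
    congr 1
    ext ⟨x, y⟩
    simp only [hP, mem_filter, mem_univ, true_and, mem_product]
    constructor
    · rintro ⟨h1, h2⟩
      exact ⟨h2, by rw [← h1, h2]⟩
    · rintro ⟨h1, h2⟩
      exact ⟨by rw [h1, h2], h1⟩
  -- values with exactly two preimages
  set N2 : Finset K := im.filter fun v => n v = 2 with hN2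
  set E : Finset K := univ.filter fun x : K => 3 * a * x ^ 2 + 2 * b * x + c = 0 with hE
  have hkey : 3 * im.card + N2.card + P.card = 4 * Fintype.card K := by
    rw [hPsum, hsum, hN2, card_filter, card_eq_sum_ones, mul_sum, mul_sum, ← sum_add_distrib,
      ← sum_add_distrib]
    refine sum_congr rfl fun v hv => ?_
    have h1 := hn1 v hv
    have h2 := hn3 v
    interval_cases n v <;> simp
  have hN2E : N2.card ≤ E.card := by
    have hsub : N2 ⊆ E.image f := by
      intro v hv
      rw [hN2, mem_filter] at hv
      obtain ⟨x1, x2, hne, h12⟩ := card_eq_two.mp hv.2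
      have m1 : f x1 = v := by
        have : x1 ∈ (univ.filter fun x : K => f x = v) := by rw [h12]; simp
        exact (mem_filter.mp this).2
      have m2 : f x2 = v := by
        have : x2 ∈ (univ.filter fun x : K => f x = v) := by rw [h12]; simp
        exact (mem_filter.mp this).2
      have hQ : a * (x1 ^ 2 + x1 * x2 + x2 ^ 2) + b * (x1 + x2) + c = 0 := by
        have h1 : (x1 - x2) * (a * (x1 ^ 2 + x1 * x2 + x2 ^ 2) + b * (x1 + x2) + c) = 0 := by
          have : f x1 = f x2 := by rw [m1, m2]
          simp only [hf] at this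
          linear_combination this
        rcases mul_eq_zero.mp h1 with h | h
        · exact absurd (sub_eq_zero.mp h) hne
        · exact h
      set x3 : K := -b / a - x1 - x2 with hx3
      have hx3' : a * x3 = -b - a * x1 - a * x2 := by
        rw [hx3]; field_simp
      have m3 : f x3 = v := by
        rw [← m1]
        simp only [hf]
        have e1 : a * x3 ^ 3 + b * x3 ^ 2 + c * x3 + d - (a * x1 ^ 3 + b * x1 ^ 2 + c * x1 + d)
            = (x3 - x1) * (a * (x3 ^ 2 + x3 * x1 + x1 ^ 2) + b * (x3 + x1) + c) := by ring
        have e2 : a * (x3 ^ 2 + x3 * x1 + x1 ^ 2) + b * (x3 + x1) + c = 0 := by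
          linear_combination hQ + (x3 - x2) * hx3'
        have e3 := e1
        rw [e2, mul_zero] at e3
        exact sub_eq_zero.mp e3
      have hx3mem : x3 ∈ ({x1, x2} : Finset K) := by
        rw [← h12]
        simp [m3]
      rw [mem_image]
      rw [mem_insert, mem_singleton] at hx3mem
      rcases hx3mem with h | h
      · refine ⟨x1, ?_, m1⟩
        rw [hE, mem_filter]
        refine ⟨mem_univ _, ?_⟩
        rw [h] at hx3'
        linear_combination hQ + (x1 - x2) * hx3'
      · refine ⟨x2, ?_, m2⟩
        rw [hE, mem_filter]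
        refine ⟨mem_univ _, ?_⟩
        rw [h] at hx3'
        linear_combination hQ + (x2 - x1) * hx3'
    exact (card_le_card hsub).trans card_image_le
  -- the conic
  set Cn : Finset (K × K) := univ.filter fun p : K × K =>
    a * (p.1 ^ 2 + p.1 * p.2 + p.2 ^ 2) + b * (p.1 + p.2) + c = 0 with hCn
  set s : K := b / (3 * a) with hs
  have hsa : 3 * a * s = b := by
    rw [hs]
    field_simp
  have hconic : ∀ p ∈ Cn, 3 * a ^ 2 * (((p.1 + s) - w * (p.2 + s)) * ((p.1 + s) - w ^ 2 * (p.2 + s)))
      = b ^ 2 - 3 * a * c := by
    intro p hp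
    rw [hCn, mem_filter] at hp
    have h := hp.2
    have e1 : ((p.1 + s) - w * (p.2 + s)) * ((p.1 + s) - w ^ 2 * (p.2 + s)) =
        (p.1 + s) ^ 2 + (p.1 + s) * (p.2 + s) + (p.2 + s) ^ 2 := by
      linear_combination (-(p.1 + s) * (p.2 + s) + (w - 1) * (p.2 + s) ^ 2) * hw
    rw [e1]
    linear_combination 3 * a * h + (3 * a * s + 3 * a * (p.1 + p.2) + b) * hsa
  have hCn_card : Cn.card ≤ Fintype.card K - 1 := by
    have : Cn.card ≤ (univ.erase (0 : K)).card := by
      refine card_le_card_of_injOn (fun p => (p.1 + s) - w * (p.2 + s)) ?_ ?_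
      · intro p hp
        have h := hconic p hp
        rw [coe_erase, Set.mem_diff, Set.mem_singleton_iff]
        refine ⟨mem_coe.mpr (mem_univ _), ?_⟩
        intro h0
        simp only at h0
        rw [h0, zero_mul, mul_zero] at h
        exact hD (sub_eq_zero.mp h.symm)
      · intro p hp p' hp' hpp
        simp only at hpp
        have h := hconic p hp
        have h' := hconic p' hp'
        have hU : (p.1 + s) - w * (p.2 + s) ≠ 0 := by
          intro h0
          rw [h0, zero_mul, mul_zero] at h
          exact hD (sub_eq_zero.mp h.symm)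
        have hV : (p.1 + s) - w ^ 2 * (p.2 + s) = (p'.1 + s) - w ^ 2 * (p'.2 + s) := by
          rw [← hpp, ← h] at h'
          have h6 : (3 * a ^ 2 * ((p.1 + s) - w * (p.2 + s))) *
              ((p.1 + s) - w ^ 2 * (p.2 + s) - ((p'.1 + s) - w ^ 2 * (p'.2 + s))) = 0 := by
            linear_combination -h'
          rcases mul_eq_zero.mp h6 with h7 | h7
          · exfalso
            rcases mul_eq_zero.mp h7 with h8 | h8
            · rcases mul_eq_zero.mp h8 with h9 | h9
              · exact h3 h9
              · exact ha (pow_eq_zero_iff two_ne_zero |>.mp h9)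
            · exact hU h8
          · exact sub_eq_zero.mp h7
        have hy : p.2 = p'.2 := by
          have h6 : (w - w ^ 2) * (p.2 - p'.2) = 0 := by linear_combination hV - hpp
          rcases mul_eq_zero.mp h6 with h7 | h7
          · exact absurd (sub_eq_zero.mp h7) hww
          · exact sub_eq_zero.mp h7
        have hx : p.1 = p'.1 := by
          rw [hy] at hpp
          linear_combination hpp
        exact Prod.ext hx hy
    rwa [card_erase_of_mem (mem_univ _), card_univ] at this
  -- the pairs with equal values
  set Off : Finset (K × K) := P.filter fun p => p.1 ≠ p.2 with hOff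
  set Dg : Finset (K × K) := P.filter fun p => ¬ p.1 ≠ p.2 with hDg
  have hPc : Off.card + Dg.card = P.card := card_filter_add_card_filter_not _
  have hDgc : Dg.card ≤ Fintype.card K := by
    rw [← card_univ]
    refine card_le_card_of_injOn (fun p => p.1) (fun p _ => mem_coe.mpr (mem_univ _)) ?_
    intro p hp p' hp' h
    rw [hDg, mem_coe, mem_filter, not_not] at hp hp'
    simp only at h
    exact Prod.ext h (by rw [← hp.2, ← hp'.2, h])
  have hOffE : Off.card + E.card ≤ Cn.card := by
    have hinj : (E.image fun x => ((x, x) : K × K)).card = E.card :=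
      card_image_of_injective _ (fun x y h => (Prod.ext_iff.mp h).1)
    rw [← hinj, ← card_union_of_disjoint]
    · apply card_le_card
      intro p hp
      rw [mem_union] at hp
      rw [hCn, mem_filter]
      refine ⟨mem_univ _, ?_⟩
      rcases hp with hp | hp
      · rw [hOff, mem_filter, hP, mem_filter] at hp
        obtain ⟨⟨_, h1⟩, h2⟩ := hp
        simp only [hf] at h1
        have h4 : (p.1 - p.2) * (a * (p.1 ^ 2 + p.1 * p.2 + p.2 ^ 2) + b * (p.1 + p.2) + c) = 0 := by
          linear_combination h1
        rcases mul_eq_zero.mp h4 with h | h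
        · exact absurd (sub_eq_zero.mp h) h2
        · exact h
      · rw [mem_image] at hp
        obtain ⟨x, hx, rfl⟩ := hp
        rw [hE, mem_filter] at hx
        simp only
        linear_combination hx.2
    · rw [disjoint_left]
      intro p hp hp'
      rw [hOff, mem_filter] at hp
      rw [mem_image] at hp'
      obtain ⟨x, _, rfl⟩ := hp'
      exact hp.2 rfl
  have hpos : 1 ≤ Fintype.card K := Fintype.card_pos
  omega

theorem taskB : Pool.Agent.H574R3.CS.TaskB := by
  intro K _ _ hq a b c d a' b' c' d' ha ha' hD
  classical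
  by_contra hcon
  push Not at hcon
  set f : K → K := fun x => a * x ^ 3 + b * x ^ 2 + c * x + d with hf
  set g : K → K := fun x => a' * x ^ 3 + b' * x ^ 2 + c' * x + d' with hg
  have h1 : 2 * Fintype.card K + 1 ≤ 3 * (univ.image f).card := image_ge hq ha hD
  have h2 : Fintype.card K ≤ 3 * (univ.image g).card := by
    rw [← card_univ]
    exact card_le_mul_card_image _ 3 (fun v _ => fibre_le ha' v)
  have h3 : Disjoint (univ.image f) (univ.image g) := by
    rw [disjoint_left]
    intro v hv hv'
    rw [mem_image] at hv hv'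
    obtain ⟨x, _, hx⟩ := hv
    obtain ⟨y, _, hy⟩ := hv'
    exact hcon x y (hx.trans hy.symm)
  have h4 : (univ.image f).card + (univ.image g).card ≤ Fintype.card K := by
    rw [← card_union_of_disjoint h3, ← card_univ]
    exact card_le_card (subset_univ _)
  omega

end Pool.Agent.H750R3.CS
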